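import Pool.Agent.Helper49_LCR.Stmts
import Pool.Agent.Helper53_Chan.Cond

/-!
# Module DEC: comparing the output of an algorithm with a constant
-/

namespace Pool.Agent.LCR.H75

open Pool.Agent.Helper32_Poly Pool.Agent.Helper53_CookLevin Pool.Agent.Helper53_Chan
open Turing Computability

theorem gen_dropLast {C : Type} [Inhabited C] {m : ℕ} {F : (Fin m → List C) → List C}
    (hF : PGen m F) : PGen m (fun ρ => (F ρ).dropLast) := by
  refine PGen.congr (PGen.reverse (PGen.dropF (PGen.reverse hF) (PGen.const [default])))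
    (fun ρ => ?_)
  simp [List.drop_one, List.tail_reverse]

theorem test_getLast {C : Type} [Inhabited C] [DecidableEq C] {m : ℕ}
    {F : (Fin m → List C) → List C} (hF : PGen m F) (a : C) :
    Test m (fun ρ => (F ρ).getLast? = some a) := by
  refine ⟨_, PGen.letw hF (PGen.caseLast (0 : Fin (m + 1))
    (fun o _ => if o = some a then [] else [a]) (fun o => PGen.const _)), fun ρ => ?_⟩
  simp only [Matrix.cons_val_zero]
  by_cases h : (F ρ).getLast? = some a <;> simp [h]

theorem test_eq {C : Type} [Inhabited C] [DecidableEq C] {m : ℕ}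
    (u : List C) : ∀ {F : (Fin m → List C) → List C}, PGen m F →
    Test m (fun ρ => F ρ = u) := by
  induction u using List.reverseRecOn with
  | nil => intro F hF; exact Test.empty hF
  | append_singleton u a ih =>
    intro F hF
    refine Test.congr (Test.and (test_getLast hF a) (ih (gen_dropLast hF))) (fun ρ => ?_)
    constructor
    · rintro ⟨h1, h2⟩
      have hne : F ρ ≠ [] := by
        intro h
        rw [h] at h1
        simp at h1
      rw [List.getLast?_eq_getLast_of_ne_nil hne] at h1
      rw [← List.dropLast_append_getLast hne, h2, Option.some.inj h1]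
    · intro h
      rw [h]
      simp

theorem gen_le (C : ℕ) : ∃ G : (Fin 1 → List Bool) → List Bool, PGen 1 G ∧
    ∀ n, G ![encodeNat n] = [decide (n ≤ C)] := by
  have hinj : ∀ {a b : ℕ}, encodeNat a = encodeNat b ↔ a = b := by
    intro a b
    refine ⟨fun h => ?_, fun h => by rw [h]⟩
    rw [← decode_encodeNat a, h, decode_encodeNat]
  induction C with
  | zero =>
    refine ⟨fun ρ => if ρ 0 = encodeNat 0 then [true] else [false],
      Test.ite (test_eq _ (PGen.var 0)) (PGen.const _) (PGen.const _), fun n => ?_⟩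
    simp only [Matrix.cons_val_zero, hinj]
    by_cases h : n = 0 <;> simp [h]
  | succ C ih =>
    obtain ⟨G, hG, h⟩ := ih
    refine ⟨fun ρ => if ρ 0 = encodeNat (C + 1) then [true] else G ρ,
      Test.ite (test_eq _ (PGen.var 0)) (PGen.const _) hG, fun n => ?_⟩
    simp only [Matrix.cons_val_zero, hinj, h]
    by_cases h : n = C + 1
    · simp [h]
    · have : n ≤ C ↔ n ≤ C + 1 := by omega
      simp [h, this]

theorem dec : DecStmt := by
  rintro C A f ⟨hA⟩ ⟨hf⟩
  obtain ⟨G, hG, h⟩ := gen_le C
  have c1 : TM2ComputableInPolyTime encodeNat (id : List Bool → List Bool) encodeNat :=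
    morphComputable encodeNat id _ [] (fun b => [b]) (fun n => by simp)
  obtain ⟨c2⟩ := pgen_computable _ hG
  obtain ⟨c3⟩ := TM2ComputableInPolyTime.comp hf hA
  obtain ⟨c4⟩ := TM2ComputableInPolyTime.comp c3 c1
  obtain ⟨c5⟩ := TM2ComputableInPolyTime.comp c4 c2
  refine ⟨⟨c5.toTM2ComputableAux, c5.time, fun w => ?_⟩⟩
  have h5 := c5.outputsFun w
  have e : ((fun w : List Bool => G ![w]) ∘ encodeNat ∘ A ∘ f) w =
      encodeBool (decide (A (f w) ≤ C)) := by
    show G ![encodeNat (A (f w))] = _
    rw [h]
    rfl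
  rw [e] at h5
  exact h5

end Pool.Agent.LCR.H75
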