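import Pool.Agent.Helper49_LCR.Stmts
import Pool.Agent.Common_Brouwer.Brouwer

/-!
# LCR squad, module K33: van Kampen–Flores for `K_{3,3}`
-/

namespace Pool.Agent.LCR.H75

open Pool.Agent.LCR Pool.Agent.Common_Brouwer

/-- the middle value -/
noncomputable def med (v : Fin 3 → ℝ) : ℝ :=
  v 0 + v 1 + v 2 - max (v 0) (max (v 1) (v 2)) - min (v 0) (min (v 1) (v 2))

/-- subtract the middle value -/
noncomputable def vb (v : Fin 3 → ℝ) (i : Fin 3) : ℝ := v i - med v

lemma continuous_med : Continuous med := by
  unfold med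
  fun_prop

lemma continuous_vb (i : Fin 3) : Continuous fun v => vb v i := by
  unfold vb
  exact (continuous_apply i).sub continuous_med

lemma med_neg (v : Fin 3 → ℝ) : med (-v) = - med v := by
  unfold med
  simp only [Pi.neg_apply]
  rw [max_neg_neg (v 1) (v 2), max_neg_neg, min_neg_neg (v 1) (v 2), min_neg_neg]
  ring

lemma vb_neg (v : Fin 3 → ℝ) (i : Fin 3) : vb (-v) i = - vb v i := by
  unfold vb
  rw [med_neg]
  simp only [Pi.neg_apply]
  ring

/-- sorted order -/
lemma exists_order (v : Fin 3 → ℝ) : ∃ i j k : Fin 3, i ≠ j ∧ j ≠ k ∧ i ≠ k ∧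
    med v = v j ∧ v j ≤ v i ∧ v k ≤ v j := by
  unfold med
  rcases le_total (v 0) (v 1) with h1 | h1 <;> rcases le_total (v 1) (v 2) with h2 | h2 <;>
    rcases le_total (v 0) (v 2) with h3 | h3
  · refine ⟨2, 1, 0, by decide, by decide, by decide, ?_, h2, h1⟩
    rw [max_eq_right h2, max_eq_right h3, min_eq_left h2, min_eq_left h1]; ring
  · refine ⟨2, 1, 0, by decide, by decide, by decide, ?_, h2, h1⟩
    rw [max_eq_right h2, max_eq_left h3, min_eq_left h2, min_eq_left h1]
    have : v 0 = v 2 := le_antisymm (h1.trans h2) h3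
    rw [this]; ring
  · refine ⟨1, 2, 0, by decide, by decide, by decide, ?_, h2, h3⟩
    rw [max_eq_left h2, max_eq_right h1, min_eq_right h2, min_eq_left h3]; ring
  · refine ⟨1, 0, 2, by decide, by decide, by decide, ?_, h1, h3⟩
    rw [max_eq_left h2, max_eq_right h1, min_eq_right h2, min_eq_right h3]; ring
  · refine ⟨2, 0, 1, by decide, by decide, by decide, ?_, h3, h1⟩
    rw [max_eq_right h2, max_eq_right h3, min_eq_left h2, min_eq_right h1]; ring
  · refine ⟨0, 2, 1, by decide, by decide, by decide, ?_, h3, h2⟩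
    rw [max_eq_right h2, max_eq_left h3, min_eq_left h2, min_eq_right h1]; ring
  · refine ⟨0, 1, 2, by decide, by decide, by decide, ?_, h1, h2⟩
    have : v 0 = v 2 := le_antisymm h3 (h2.trans h1)
    rw [max_eq_left h2, max_eq_left h1, min_eq_right h2, min_eq_left h3, this]; ring
  · refine ⟨0, 1, 2, by decide, by decide, by decide, ?_, h1, h2⟩
    rw [max_eq_left h2, max_eq_left h1, min_eq_right h2, min_eq_right h3]; ring

/-- positive and negative part of `vb` are supported on two different single coordinates -/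
lemma vb_supp (v : Fin 3 → ℝ) : ∃ i k : Fin 3, i ≠ k ∧ 0 ≤ vb v i ∧ vb v k ≤ 0 ∧
    ∀ l, l ≠ i → l ≠ k → vb v l = 0 := by
  obtain ⟨i, j, k, hij, hjk, hik, hm, h1, h2⟩ := exists_order v
  refine ⟨i, k, hik, ?_, ?_, ?_⟩
  · unfold vb; rw [hm]; linarith
  · unfold vb; rw [hm]; linarith
  · intro l hl1 hl2
    have key : ∀ i j k l : Fin 3, i ≠ j → j ≠ k → i ≠ k → l ≠ i → l ≠ k → l = j := by omega
    have : l = j := key i j k l hij hjk hik hl1 hl2
    subst this
    unfold vb; rw [hm]; ring

lemma const_of_vb (v : Fin 3 → ℝ) (h : ∀ i, vb v i = 0) (i j : Fin 3) : v i = v j := by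
  have h1 := h i
  have h2 := h j
  unfold vb at h1 h2
  linarith

section cone

variable {p q : Pt} (γ : Path p q)

/-- cone over the path -/
noncomputable def cone (s t : ℝ) : Pt := (s + t) • γ.extend (t / (s + t))

lemma extend_bdd : ∃ M, ∀ s : ℝ, ‖γ.extend s‖ ≤ M := by
  have hc : IsCompact (Set.range γ) := isCompact_range γ.continuous
  obtain ⟨M, hM⟩ := hc.isBounded.exists_norm_le
  refine ⟨M, fun s => hM _ ?_⟩
  rw [← Path.extend_range γ]
  exact ⟨s, rfl⟩

lemma continuous_cone : Continuous fun x : ℝ × ℝ => cone γ x.1 x.2 := by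
  rw [continuous_iff_continuousAt]
  rintro ⟨s, t⟩
  by_cases h : s + t = 0
  · obtain ⟨M, hM⟩ := extend_bdd γ
    unfold ContinuousAt cone
    simp only [h, zero_smul]
    refine squeeze_zero_norm (a := fun x : ℝ × ℝ => |x.1 + x.2| * M) ?_ ?_
    · rintro ⟨a, b⟩
      rw [norm_smul, Real.norm_eq_abs]
      exact mul_le_mul_of_nonneg_left (hM _) (abs_nonneg _)
    · have : Continuous fun x : ℝ × ℝ => |x.1 + x.2| * M := by fun_prop
      have h2 := this.tendsto (s, t)
      simpa [h] using h2
  · unfold cone
    have h1 : ContinuousAt (fun x : ℝ × ℝ => x.2 / (x.1 + x.2)) (s, t) :=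
      continuousAt_snd.div (continuousAt_fst.add continuousAt_snd) h
    have h2 : ContinuousAt (fun x : ℝ × ℝ => γ.extend (x.2 / (x.1 + x.2))) (s, t) :=
      (Path.continuous_extend γ).continuousAt.comp h1
    exact (continuousAt_fst.add continuousAt_snd).smul h2

lemma cone_zero_right (s : ℝ) : cone γ s 0 = s • p := by
  unfold cone
  simp

lemma cone_zero_left (t : ℝ) : cone γ 0 t = t • q := by
  unfold cone
  by_cases h : t = 0
  · subst h; simp
  · rw [zero_add, div_self h]
    simp

end cone

variable (p q : Fin 3 → Pt) (γ : ∀ i j, Path (p i) (q j))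

/-- the map of the join -/
noncomputable def Phi (a b : Fin 3 → ℝ) : Pt :=
  ∑ i, a i • p i + ∑ j, b j • q j +
    ∑ i, ∑ j, (cone (γ i j) (a i) (b j) - a i • p i - b j • q j)

lemma continuous_Phi : Continuous fun x : (Fin 3 → ℝ) × (Fin 3 → ℝ) => Phi p q γ x.1 x.2 := by
  unfold Phi
  refine Continuous.add (by fun_prop) ?_
  refine continuous_finsetSum _ fun i _ => continuous_finsetSum _ fun j _ => ?_
  have h : Continuous fun x : (Fin 3 → ℝ) × (Fin 3 → ℝ) => cone (γ i j) (x.1 i) (x.2 j) :=
    (continuous_cone (γ i j)).comp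
      (f := fun x : (Fin 3 → ℝ) × (Fin 3 → ℝ) => (x.1 i, x.2 j)) (by fun_prop)
  exact (h.sub (by fun_prop)).sub (by fun_prop)

lemma Phi_single (i j : Fin 3) (a b : ℝ) (f g : Fin 3 → ℝ) (hf : f i = a)
    (hf0 : ∀ l, l ≠ i → f l = 0) (hg : g j = b) (hg0 : ∀ l, l ≠ j → g l = 0) :
    Phi p q γ f g = cone (γ i j) a b := by
  unfold Phi
  have h1 : ∑ l, f l • p l = a • p i := by
    rw [Finset.sum_eq_single i]
    · rw [hf]
    · intro l _ hl; rw [hf0 l hl, zero_smul]
    · simp
  have h2 : ∑ l, g l • q l = b • q j := by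
    rw [Finset.sum_eq_single j]
    · rw [hg]
    · intro l _ hl; rw [hg0 l hl, zero_smul]
    · simp
  have h3 : ∑ k, ∑ l, (cone (γ k l) (f k) (g l) - f k • p k - g l • q l) =
      cone (γ i j) a b - a • p i - b • q j := by
    rw [Finset.sum_eq_single i]
    · rw [Finset.sum_eq_single j]
      · rw [hf, hg]
      · intro l _ hl
        rw [hg0 l hl, cone_zero_right]
        simp
      · simp
    · intro k _ hk
      refine Finset.sum_eq_zero fun l _ => ?_
      rw [hf0 k hk, cone_zero_left]
      simp
    · simp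
  rw [h1, h2, h3]
  abel

/-- first three coordinates -/
noncomputable def vv (x : Fin 3 → ℝ) : Fin 3 → ℝ := ![x 0, x 1, 0]

/-- last three coordinates -/
noncomputable def ww (x : Fin 3 → ℝ) : Fin 3 → ℝ := ![x 2, 1 - l1 x, 0]

lemma continuous_vv : Continuous vv := by
  unfold vv
  refine continuous_pi fun i => ?_
  fin_cases i
  · exact continuous_apply 0
  · exact continuous_apply 1
  · exact continuous_const

lemma continuous_ww : Continuous ww := by
  unfold ww
  refine continuous_pi fun i => ?_
  fin_cases i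
  · exact continuous_apply 2
  · exact continuous_const.sub continuous_l1
  · exact continuous_const

/-- the test map -/
noncomputable def hmap (x : Fin 3 → ℝ) : Fin 3 → ℝ :=
  let P : Pt := Phi p q γ (fun i => max (vb (vv x) i) 0) (fun i => max (vb (ww x) i) 0) -
    Phi p q γ (fun i => max (-vb (vv x) i) 0) (fun i => max (-vb (ww x) i) 0)
  ![∑ i, vb (vv x) i + ∑ i, vb (ww x) i, P.1, P.2]

lemma continuous_hmap : Continuous (hmap p q γ) := by
  have hv : ∀ i, Continuous fun x => vb (vv x) i := fun i => (continuous_vb i).comp continuous_vv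
  have hw : ∀ i, Continuous fun x => vb (ww x) i := fun i => (continuous_vb i).comp continuous_ww
  have h1 : Continuous fun x => Phi p q γ (fun i => max (vb (vv x) i) 0)
      (fun i => max (vb (ww x) i) 0) :=
    (continuous_Phi p q γ).comp (f := fun x => ((fun i => max (vb (vv x) i) 0 : Fin 3 → ℝ),
      (fun i => max (vb (ww x) i) 0 : Fin 3 → ℝ)))
      ((continuous_pi fun i => (hv i).max continuous_const).prodMk
        (continuous_pi fun i => (hw i).max continuous_const))
  have h2 : Continuous fun x => Phi p q γ (fun i => max (-vb (vv x) i) 0)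
      (fun i => max (-vb (ww x) i) 0) :=
    (continuous_Phi p q γ).comp (f := fun x => ((fun i => max (-vb (vv x) i) 0 : Fin 3 → ℝ),
      (fun i => max (-vb (ww x) i) 0 : Fin 3 → ℝ)))
      ((continuous_pi fun i => (hv i).neg.max continuous_const).prodMk
        (continuous_pi fun i => (hw i).neg.max continuous_const))
  unfold hmap
  refine continuous_pi fun i => ?_
  fin_cases i
  · exact (continuous_finsetSum _ fun i _ => hv i).add (continuous_finsetSum _ fun i _ => hw i)
  · exact (h1.sub h2).fst
  · exact (h1.sub h2).snd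

lemma hmap_odd (x : Fin 3 → ℝ) (hx : l1 x = 1) : hmap p q γ (-x) = - hmap p q γ x := by
  have e1 : vv (-x) = - vv x := by
    funext i; fin_cases i <;> simp [vv]
  have e2 : ww (-x) = - ww x := by
    funext i; fin_cases i <;> simp [ww, l1_neg, hx]
  unfold hmap
  simp only [e1, e2, vb_neg, neg_neg]
  funext i
  fin_cases i
  · simp [Finset.sum_neg_distrib]; ring
  · simp
  · simp

lemma mem_range_cone {i j : Fin 3} {a b s : ℝ} (ha : 0 ≤ a) (hb : 0 ≤ b) (hs : a + b = s)
    (h0 : 0 < s) : ∃ y ∈ Set.range (γ i j), cone (γ i j) a b = s • y := by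
  refine ⟨(γ i j).extend (b / s), ?_, ?_⟩
  · rw [← Path.extend_range (γ i j)]
    exact ⟨_, rfl⟩
  · unfold cone
    rw [hs]

theorem k33 : K33Stmt := by
  intro p q γ hdis
  refine no_odd 2 (hmap p q γ) (continuous_hmap p q γ).continuousOn ?_
    (fun x hx => hmap_odd p q γ x hx)
  intro x hx h0
  obtain ⟨i, i', hii, hi, hi', hv0⟩ := vb_supp (vv x)
  obtain ⟨j, j', hjj, hj, hj', hw0⟩ := vb_supp (ww x)
  set a := vb (vv x) i with ha
  set a' := -vb (vv x) i' with ha'
  set b := vb (ww x) j with hb
  set b' := -vb (ww x) j' with hb'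
  have hv : ∀ l, vb (vv x) l = if l = i then a else if l = i' then -a' else 0 := by
    intro l
    by_cases h1 : l = i
    · rw [if_pos h1, h1]
    · rw [if_neg h1]
      by_cases h2 : l = i'
      · rw [if_pos h2, h2, ha']; ring
      · rw [if_neg h2]; exact hv0 l h1 h2
  have hw : ∀ l, vb (ww x) l = if l = j then b else if l = j' then -b' else 0 := by
    intro l
    by_cases h1 : l = j
    · rw [if_pos h1, h1]
    · rw [if_neg h1]
      by_cases h2 : l = j'
      · rw [if_pos h2, h2, hb']; ring
      · rw [if_neg h2]; exact hw0 l h1 h2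
  have ha'0 : 0 ≤ a' := by rw [ha']; linarith
  have hb'0 : 0 ≤ b' := by rw [hb']; linarith
  have hP1 : Phi p q γ (fun i => max (vb (vv x) i) 0) (fun i => max (vb (ww x) i) 0) =
      cone (γ i j) a b := by
    refine Phi_single p q γ i j a b _ _ (max_eq_left hi) ?_ (max_eq_left hj) ?_
    · intro l hl
      change max (vb (vv x) l) 0 = 0
      rw [hv l, if_neg hl]
      split_ifs
      · exact max_eq_right (by linarith)
      · exact max_self 0
    · intro l hl
      change max (vb (ww x) l) 0 = 0
      rw [hw l, if_neg hl]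
      split_ifs
      · exact max_eq_right (by linarith)
      · exact max_self 0
  have hP2 : Phi p q γ (fun i => max (-vb (vv x) i) 0) (fun i => max (-vb (ww x) i) 0) =
      cone (γ i' j') a' b' := by
    refine Phi_single p q γ i' j' a' b' _ _ (max_eq_left ha'0) ?_ (max_eq_left hb'0) ?_
    · intro l hl
      change max (-vb (vv x) l) 0 = 0
      rw [hv l]
      split_ifs
      · exact max_eq_right (by linarith)
      · rw [neg_zero]; exact max_self 0
    · intro l hl
      change max (-vb (ww x) l) 0 = 0
      rw [hw l]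
      split_ifs
      · exact max_eq_right (by linarith)
      · rw [neg_zero]; exact max_self 0
  have hsv : ∑ l, vb (vv x) l = a - a' := by
    rw [Finset.sum_congr rfl fun l _ => hv l]
    revert hii
    clear_value a a'
    fin_cases i <;> fin_cases i' <;> simp [Fin.sum_univ_three] <;> ring_nf
  have hsw : ∑ l, vb (ww x) l = b - b' := by
    rw [Finset.sum_congr rfl fun l _ => hw l]
    revert hjj
    clear_value b b'
    fin_cases j <;> fin_cases j' <;> simp [Fin.sum_univ_three] <;> ring_nf
  have c0 : ∑ i, vb (vv x) i + ∑ i, vb (ww x) i = 0 := by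
    have := congrFun h0 0
    simpa [hmap] using this
  have c1 := congrFun h0 1
  have c2 := congrFun h0 2
  simp only [hmap, hP1, hP2] at c1 c2
  have hcone : cone (γ i j) a b = cone (γ i' j') a' b' := by
    refine Prod.ext ?_ ?_
    · have : (cone (γ i j) a b - cone (γ i' j') a' b').1 = 0 := by simpa using c1
      rw [Prod.fst_sub] at this
      linarith
    · have : (cone (γ i j) a b - cone (γ i' j') a' b').2 = 0 := by simpa using c2
      rw [Prod.snd_sub] at this
      linarith
  have hsum : a + b = a' + b' := by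
    rw [hsv, hsw] at c0; linarith
  have hpos : 0 < a + b := by
    rcases lt_or_eq_of_le (add_nonneg hi hj) with h | h
    · exact h
    · exfalso
      have z1 : a = 0 := by linarith
      have z2 : b = 0 := by linarith
      have z3 : a' = 0 := by linarith
      have z4 : b' = 0 := by linarith
      have hv' : ∀ l, vb (vv x) l = 0 := by
        intro l; rw [hv l, z1, z3]; simp
      have hw' : ∀ l, vb (ww x) l = 0 := by
        intro l; rw [hw l, z2, z4]; simp
      have x0 : x 0 = 0 := by simpa [vv] using const_of_vb _ hv' 0 2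
      have x1 : x 1 = 0 := by simpa [vv] using const_of_vb _ hv' 1 2
      have x2 : x 2 = 0 := by simpa [ww] using const_of_vb _ hw' 0 2
      have x3 : 1 - l1 x = 0 := by simpa [ww] using const_of_vb _ hw' 1 2
      have : l1 x = 0 := by
        unfold l1
        rw [Fin.sum_univ_three, x0, x1, x2]
        simp
      rw [this] at x3
      norm_num at x3
  obtain ⟨y, hy, hy'⟩ := mem_range_cone p q γ (i := i) (j := j) hi hj rfl hpos
  obtain ⟨y', hyr, hyr'⟩ := mem_range_cone p q γ (i := i') (j := j') ha'0 hb'0 hsum.symm hpos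
  have hyy : y = y' := by
    have := hy'.symm.trans (hcone.trans hyr')
    exact smul_right_injective _ hpos.ne' this
  rw [hyy] at hy
  exact Set.disjoint_left.1 (hdis i i' j j' hii hjj) hy hyr

end Pool.Agent.LCR.H75
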